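import Mathlib

/-!
# Small families of sets which are hard to hit (helper973, MP_af1bb3_co)
-/

set_option autoImplicit false

namespace Pool.Agent.R973.CD

open Finset

theorem card_not_disjoint (L a t : ℕ) (T : Finset (Fin L)) (hT : T.card = t) :
    ((powersetCard a (univ : Finset (Fin L))).filter (fun S => ¬ Disjoint S T)).card =
      L.choose a - (L - t).choose a := by
  classical
  have h1 := Finset.card_filter_add_card_filter_not (s := powersetCard a (univ : Finset (Fin L)))
    (fun S => Disjoint S T)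
  have h2 : (powersetCard a (univ : Finset (Fin L))).filter (fun S => Disjoint S T) =
      powersetCard a Tᶜ := by
    ext S
    simp only [mem_filter, mem_powersetCard]
    constructor
    · rintro ⟨⟨_, h⟩, h'⟩
      refine ⟨?_, h⟩
      intro x hx
      rw [mem_compl]
      exact fun hxT => (Finset.disjoint_left.mp h') hx hxT
    · rintro ⟨h, h'⟩
      refine ⟨⟨subset_univ _, h'⟩, ?_⟩
      rw [Finset.disjoint_left]
      intro x hx hxT
      have := h hx
      rw [mem_compl] at this
      exact this hxT
  rw [h2, card_powersetCard, card_powersetCard, card_compl, hT] at h1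
  simp only [Fintype.card_fin, card_univ] at h1
  omega

theorem cover_exists (L a t M : ℕ) (htL : t ≤ L)
    (h : 2 ^ L * (L.choose a - (L - t).choose a) ^ M < (L.choose a) ^ M) :
    ∃ N : Fin M → Finset (Fin L), (∀ x, (N x).card = a) ∧
      ∀ T : Finset (Fin L), T.card < t → ∃ x, Disjoint (N x) T := by
  classical
  by_contra hcon
  push Not at hcon
  set 𝒩 := powersetCard a (univ : Finset (Fin L)) with h𝒩
  have hsub : Fintype.piFinset (fun _ : Fin M => 𝒩) ⊆
      (powersetCard t (univ : Finset (Fin L))).biUnion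
        (fun T => Fintype.piFinset (fun _ : Fin M => 𝒩.filter (fun S => ¬ Disjoint S T))) := by
    intro N hN
    rw [Fintype.mem_piFinset] at hN
    have hN' : ∀ x, (N x).card = a := fun x => (mem_powersetCard.mp (hN x)).2
    obtain ⟨T, hT, hTx⟩ := hcon N hN'
    obtain ⟨T', hTT', hT'⟩ : ∃ T' : Finset (Fin L), T ⊆ T' ∧ T'.card = t := by
      have h1 : T.card ≤ t := hT.le
      have h2 : t ≤ (univ : Finset (Fin L)).card := by simpa using htL
      obtain ⟨u, hu1, _, hu3⟩ := Finset.exists_subsuperset_card_eq (subset_univ T) h1 h2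
      exact ⟨u, hu1, hu3⟩
    rw [mem_biUnion]
    refine ⟨T', by rw [mem_powersetCard]; exact ⟨subset_univ _, hT'⟩, ?_⟩
    rw [Fintype.mem_piFinset]
    intro x
    rw [mem_filter]
    refine ⟨hN x, ?_⟩
    intro hd
    exact hTx x (Finset.disjoint_of_subset_right hTT' hd)
  have h1 := card_le_card hsub
  rw [Fintype.card_piFinset] at h1
  have h2 : ∏ _x : Fin M, 𝒩.card = (L.choose a) ^ M := by
    simp [h𝒩]
  rw [h2] at h1
  have h3 := h1.trans card_biUnion_le
  have h4 : ∑ T ∈ powersetCard t (univ : Finset (Fin L)),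
      (Fintype.piFinset (fun _ : Fin M => 𝒩.filter (fun S => ¬ Disjoint S T))).card ≤
      2 ^ L * (L.choose a - (L - t).choose a) ^ M := by
    have h5 : ∀ T ∈ powersetCard t (univ : Finset (Fin L)),
        (Fintype.piFinset (fun _ : Fin M => 𝒩.filter (fun S => ¬ Disjoint S T))).card =
        (L.choose a - (L - t).choose a) ^ M := by
      intro T hT
      rw [Fintype.card_piFinset]
      simp only [prod_const, card_univ, Fintype.card_fin]
      rw [card_not_disjoint L a t T (mem_powersetCard.mp hT).2]
    rw [sum_congr rfl h5, sum_const, smul_eq_mul]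
    apply Nat.mul_le_mul_right
    rw [card_powersetCard]
    simp only [card_univ, Fintype.card_fin]
    exact Nat.choose_le_two_pow L t
  omega

theorem choose_ratio (L a t : ℕ) (h : a + t ≤ L) (s : ℕ) (hs : s ≤ t) :
    L.choose a * (L - a - t) ^ s ≤ (L - s).choose a * L ^ s := by
  induction s with
  | zero => simp
  | succ s ih =>
    have ih' := ih (by omega)
    have h1 : (L - s - 1).choose a * (L - s) = (L - s).choose a * (L - s - a) := by
      have := Nat.choose_mul_succ_eq (L - s - 1) a
      have h2 : L - s - 1 + 1 = L - s := by omega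
      rw [h2] at this
      exact this
    calc L.choose a * (L - a - t) ^ (s + 1)
        = (L.choose a * (L - a - t) ^ s) * (L - a - t) := by rw [pow_succ, mul_assoc]
      _ ≤ ((L - s).choose a * L ^ s) * (L - s - a) := by
          apply Nat.mul_le_mul ih'
          omega
      _ = ((L - s).choose a * (L - s - a)) * L ^ s := by ring
      _ = ((L - s - 1).choose a * (L - s)) * L ^ s := by rw [h1]
      _ ≤ ((L - s - 1).choose a * L) * L ^ s := by
          apply Nat.mul_le_mul_right
          apply Nat.mul_le_mul_left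
          omega
      _ = (L - (s + 1)).choose a * L ^ (s + 1) := by
          rw [pow_succ, Nat.sub_add_eq]; ring

theorem cover_exists' (L a t M : ℕ) (hL : 0 < L) (h : a + t ≤ L)
    (hM : (L : ℝ) ≤ (((L : ℝ) - a - t) / L) ^ t * M) :
    ∃ N : Fin M → Finset (Fin L), (∀ x, (N x).card = a) ∧
      ∀ T : Finset (Fin L), T.card < t → ∃ x, Disjoint (N x) T := by
  apply cover_exists L a t M (by omega)
  have hLpos : (0 : ℝ) < L := by exact_mod_cast hL
  have hc0 : 0 < L.choose a := Nat.choose_pos (by omega)
  have hc0' : (0 : ℝ) < L.choose a := by exact_mod_cast hc0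
  have hcle : (L - t).choose a ≤ L.choose a := Nat.choose_le_choose a (by omega)
  have hr := choose_ratio L a t h t le_rfl
  set δ : ℝ := ((L - t).choose a : ℝ) / (L.choose a : ℝ) with hδ
  have hcast : ((L - a - t : ℕ) : ℝ) = (L : ℝ) - a - t := by
    rw [Nat.cast_sub (by omega), Nat.cast_sub (by omega)]
  have hδge : (((L : ℝ) - a - t) / L) ^ t ≤ δ := by
    rw [hδ, le_div_iff₀ hc0', div_pow, div_mul_eq_mul_div, div_le_iff₀ (by positivity)]
    have : ((L.choose a * (L - a - t) ^ t : ℕ) : ℝ) ≤ (((L - t).choose a * L ^ t : ℕ) : ℝ) := by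
      exact_mod_cast hr
    push_cast [hcast] at this
    linarith
  have hδ1 : δ ≤ 1 := by
    rw [hδ, div_le_one hc0']; exact_mod_cast hcle
  have key : (2 : ℝ) ^ L * (1 - δ) ^ M < 1 := by
    have h1 : (1 - δ) ^ M ≤ Real.exp (-(δ * M)) := by
      have : 1 - δ ≤ Real.exp (-δ) := by
        have := Real.add_one_le_exp (-δ); linarith
      calc (1 - δ) ^ M ≤ (Real.exp (-δ)) ^ M := pow_le_pow_left₀ (by linarith) this M
        _ = Real.exp (-(δ * M)) := by rw [← Real.exp_nat_mul]; congr 1; ring
    have h2 : (L : ℝ) ≤ δ * M := by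
      refine hM.trans ?_
      exact mul_le_mul_of_nonneg_right hδge (Nat.cast_nonneg M)
    have h3 : Real.exp (-(δ * M)) ≤ Real.exp (-(L : ℝ)) := Real.exp_le_exp.mpr (by linarith)
    have h4 : (2 : ℝ) ^ L < Real.exp L := by
      have : (2 : ℝ) < Real.exp 1 := by
        have := Real.exp_one_gt_d9; linarith
      calc (2 : ℝ) ^ L < (Real.exp 1) ^ L := pow_lt_pow_left₀ this (by norm_num) (by omega)
        _ = Real.exp L := by rw [← Real.exp_nat_mul]; simp
    have h5 : (1 - δ) ^ M ≤ Real.exp (-(L : ℝ)) := h1.trans h3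
    calc (2 : ℝ) ^ L * (1 - δ) ^ M ≤ 2 ^ L * Real.exp (-(L : ℝ)) := by
          exact mul_le_mul_of_nonneg_left h5 (by positivity)
      _ < Real.exp L * Real.exp (-(L : ℝ)) := by
          exact mul_lt_mul_of_pos_right h4 (Real.exp_pos _)
      _ = 1 := by rw [← Real.exp_add]; simp
  have hfin : ((2 ^ L * (L.choose a - (L - t).choose a) ^ M : ℕ) : ℝ) <
      (((L.choose a) ^ M : ℕ) : ℝ) := by
    push_cast [Nat.cast_sub hcle]
    have h6 : ((L.choose a : ℝ) - ((L - t).choose a : ℝ)) = (1 - δ) * L.choose a := by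
      rw [hδ]; field_simp
    rw [h6, mul_pow, ← mul_assoc]
    have : (2 : ℝ) ^ L * (1 - δ) ^ M * (L.choose a : ℝ) ^ M < 1 * (L.choose a : ℝ) ^ M :=
      mul_lt_mul_of_pos_right key (by positivity)
    linarith
  exact_mod_cast hfin

end Pool.Agent.R973.CD
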