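import Mathlib

/-!
# The gadget graph for connected domination (helper973, MP_af1bb3_co)

Vertices: `D c x` (the cheap dominators), `P c x v j` (private vertices) and the clique `A`.
-/

set_option autoImplicit false

namespace Pool.Agent.R973.CD

open Finset

/-- `S` is a dominating set of `G`. -/
def IsDom {V : Type*} (G : SimpleGraph V) (S : Finset V) : Prop :=
  ∀ v, v ∉ S → ∃ u ∈ S, G.Adj v u

/-- every vertex of `S` has a neighbour in `S`, unless `S` is a singleton -/
def NoIso {V : Type*} (G : SimpleGraph V) (S : Finset V) : Prop :=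
  ∀ d ∈ S, (∃ s ∈ S, s ≠ d) → ∃ u ∈ S, G.Adj d u

abbrev Vt (C A : Type) (M r q J : ℕ) : Type :=
  (C × Fin M) ⊕ ((C × Fin M × (Fin r → Fin q) × Fin J) ⊕ A)

section
variable {C A : Type} {M L r q J : ℕ}

/-- adjacency of the gadget graph -/
def adjR (τ : A → C × Fin L) (N : Fin M → Finset (Fin L)) :
    Vt C A M r q J → Vt C A M r q J → Prop
  | .inl d, .inr (.inl p) => d.1 = p.1 ∧ d.2 = p.2.1
  | .inr (.inl p), .inl d => d.1 = p.1 ∧ d.2 = p.2.1
  | .inr (.inl p), .inr (.inl p') => p.1 = p'.1 ∧ ∀ i, p.2.2.1 i ≠ p'.2.2.1 i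
  | .inl d, .inr (.inr a) => (τ a).1 = d.1 ∧ (τ a).2 ∈ N d.2
  | .inr (.inr a), .inl d => (τ a).1 = d.1 ∧ (τ a).2 ∈ N d.2
  | .inr (.inr a), .inr (.inr a') => a ≠ a'
  | _, _ => False

/-- the gadget graph -/
def GG (τ : A → C × Fin L) (N : Fin M → Finset (Fin L)) (hr : 0 < r) :
    SimpleGraph (Vt C A M r q J) where
  Adj := adjR τ N
  symm := ⟨by
    intro u v h
    rcases u with d | p | a <;> rcases v with d' | p' | a' <;> simp only [adjR] at h ⊢
    · exact h
    · exact h
    · exact h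
    · exact ⟨h.1.symm, fun i => (h.2 i).symm⟩
    · exact h
    · exact h.symm⟩
  loopless := ⟨by
    intro u h
    rcases u with d | p | a <;> simp only [adjR] at h
    · exact h.2 ⟨0, hr⟩ rfl
    · exact h rfl⟩

variable [Fintype C] [DecidableEq C]

/-- the copy of a vertex -/
def cop (τ : A → C × Fin L) : Vt C A M r q J → C
  | .inl d => d.1
  | .inr (.inl p) => p.1
  | .inr (.inr a) => (τ a).1

variable [DecidableEq A]

set_option linter.unusedSectionVars false

theorem all_D (τ : A → C × Fin L) (N : Fin M → Finset (Fin L)) (hr : 0 < r) (hq : 0 < q)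
    (S : Finset (Vt C A M r q J)) (hdom : IsDom (GG τ N hr) S) (c : C) (t : ℕ)
    (hrt : M + t ≤ r) (hJt : M + t ≤ J)
    (hlt : (S.filter (fun u => cop τ u = c)).card < M + t) (x : Fin M) :
    (Sum.inl (c, x) : Vt C A M r q J) ∈ S := by
  classical
  by_contra hx
  set SP : Finset (C × Fin M × (Fin r → Fin q) × Fin J) :=
    univ.filter (fun p => p.1 = c ∧ (Sum.inr (Sum.inl p) : Vt C A M r q J) ∈ S) with hSP
  have hSPcard : SP.card ≤ (S.filter (fun u => cop τ u = c)).card := by
    apply Finset.card_le_card_of_injOn (fun p => (Sum.inr (Sum.inl p) : Vt C A M r q J))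
    · intro p hp
      have hp' : p ∈ SP := hp
      rw [hSP, mem_filter] at hp'
      rw [mem_coe, mem_filter]
      exact ⟨hp'.2.2, hp'.2.1⟩
    · intro p _ p' _ h
      exact Sum.inl_injective (Sum.inr_injective h)
  have hle : SP.card ≤ r := by omega
  obtain ⟨ι, hι⟩ : ∃ ι : SP → Fin r, Function.Injective ι := by
    have : Fintype.card SP ≤ Fintype.card (Fin r) := by
      simpa using hle
    obtain ⟨f⟩ := Function.Embedding.nonempty_of_card_le this
    exact ⟨f, f.injective⟩
  let v : Fin r → Fin q := fun i =>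
    if h : ∃ p : SP, ι p = i then (h.choose).1.2.2.1 i else ⟨0, hq⟩
  have hv : ∀ p : SP, v (ι p) = p.1.2.2.1 (ι p) := by
    intro p
    have h : ∃ p' : SP, ι p' = ι p := ⟨p, rfl⟩
    have h2 : h.choose = p := hι h.choose_spec
    simp only [v]
    rw [dif_pos h, h2]
  have hall : ∀ j : Fin J, (c, x, v, j) ∈ SP := by
    intro j
    rw [hSP, mem_filter]
    refine ⟨mem_univ _, rfl, ?_⟩
    by_contra hnot
    obtain ⟨u, huS, hadj⟩ := hdom _ hnot
    rcases u with d | p | a
    · obtain ⟨h1, h2⟩ : d.1 = c ∧ d.2 = x := hadj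
      apply hx
      have : d = (c, x) := Prod.ext h1 h2
      rw [← this]; exact huS
    · obtain ⟨h1, h2⟩ : c = p.1 ∧ ∀ i, v i ≠ p.2.2.1 i := hadj
      have hp : p ∈ SP := by
        rw [hSP, mem_filter]
        exact ⟨mem_univ _, h1.symm, huS⟩
      exact h2 (ι ⟨p, hp⟩) (hv ⟨p, hp⟩)
    · exact hadj
  have hJ : J ≤ SP.card := by
    have := Finset.card_le_card_of_injOn (s := (univ : Finset (Fin J))) (t := SP)
      (fun j => (c, x, v, j)) (fun j _ => hall j) (by
        intro j _ j' _ h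
        simpa using h)
    simpa using this
  omega

theorem copy_lower (τ : A → C × Fin L) (N : Fin M → Finset (Fin L)) (hr : 0 < r) (hq : 0 < q)
    (S : Finset (Vt C A M r q J)) (hdom : IsDom (GG τ N hr) S) (hni : NoIso (GG τ N hr) S)
    (c : C) (t : ℕ) (hM : 2 ≤ M)
    (hrt : M + t ≤ r) (hJt : M + t ≤ J) (hNne : ∀ x, (N x).Nonempty)
    (hcov : ∀ T : Finset (Fin L), T.card < t → ∃ x, Disjoint (N x) T) :
    M + t ≤ (S.filter (fun u => cop τ u = c)).card := by
  classical
  by_contra hlt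
  push Not at hlt
  have hD := all_D τ N hr hq S hdom c t hrt hJt hlt
  -- the type of a vertex
  let ty : Vt C A M r q J → Fin L := fun u => match u with
    | .inl d => (hNne d.2).choose
    | .inr (.inl p) => (hNne p.2.1).choose
    | .inr (.inr a) => (τ a).2
  set Sc := S.filter (fun u => cop τ u = c) with hSc
  set Dc : Finset (Vt C A M r q J) :=
    (univ : Finset (Fin M)).image (fun x => (Sum.inl (c, x) : Vt C A M r q J)) with hDc
  have hDcard : Dc.card = M := by
    rw [hDc, Finset.card_image_of_injective]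
    · simp
    · intro x y h
      have := Sum.inl_injective h
      simpa using this
  have hDsub : Dc ⊆ Sc := by
    intro u hu
    rw [hDc, mem_image] at hu
    obtain ⟨x, _, rfl⟩ := hu
    rw [hSc, mem_filter]
    exact ⟨hD x, rfl⟩
  set T : Finset (Fin L) := (Sc \ Dc).image ty with hT
  have hTcard : T.card < t := by
    have h1 : T.card ≤ (Sc \ Dc).card := card_image_le
    have h2 : (Sc \ Dc).card = Sc.card - Dc.card := card_sdiff_of_subset hDsub
    have h3 : Dc.card ≤ Sc.card := card_le_card hDsub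
    omega
  obtain ⟨x, hx⟩ := hcov T hTcard
  have h1 : ∃ s ∈ S, s ≠ (Sum.inl (c, x) : Vt C A M r q J) := by
    obtain ⟨y, hy⟩ : ∃ y : Fin M, y ≠ x := by
      by_cases h0 : x.1 = 0
      · exact ⟨⟨1, by omega⟩, fun h => by rw [Fin.ext_iff] at h; simp at h; omega⟩
      · exact ⟨⟨0, by omega⟩, fun h => by rw [Fin.ext_iff] at h; simp at h; omega⟩
    refine ⟨Sum.inl (c, y), hD y, ?_⟩
    intro h
    have := Sum.inl_injective h
    exact hy (by simpa using this)
  obtain ⟨u, huS, hadj⟩ := hni _ (hD x) h1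
  rcases u with d | p | a
  · exact hadj
  · obtain ⟨h2, h3⟩ : c = p.1 ∧ x = p.2.1 := hadj
    have hmem : ty (Sum.inr (Sum.inl p)) ∈ T := by
      rw [hT]
      apply mem_image_of_mem
      rw [mem_sdiff, hSc, mem_filter]
      refine ⟨⟨huS, h2.symm⟩, ?_⟩
      rw [hDc, mem_image]
      rintro ⟨y, _, hy⟩
      cases hy
    have hmem2 : ty (Sum.inr (Sum.inl p)) ∈ N x := by
      have := (hNne p.2.1).choose_spec
      simp only [ty]
      rw [h3]; exact this
    exact (Finset.disjoint_left.mp hx) hmem2 hmem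
  · obtain ⟨h2, h3⟩ : (τ a).1 = c ∧ (τ a).2 ∈ N x := hadj
    have hmem : ty (Sum.inr (Sum.inr a)) ∈ T := by
      rw [hT]
      apply mem_image_of_mem
      rw [mem_sdiff, hSc, mem_filter]
      refine ⟨⟨huS, h2⟩, ?_⟩
      rw [hDc, mem_image]
      rintro ⟨y, _, hy⟩
      cases hy
    exact (Finset.disjoint_left.mp hx) h3 hmem

theorem conn_lower (τ : A → C × Fin L) (N : Fin M → Finset (Fin L)) (hr : 0 < r) (hq : 0 < q)
    (S : Finset (Vt C A M r q J)) (hdom : IsDom (GG τ N hr) S) (hni : NoIso (GG τ N hr) S)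
    (t : ℕ) (hM : 2 ≤ M)
    (hrt : M + t ≤ r) (hJt : M + t ≤ J) (hNne : ∀ x, (N x).Nonempty)
    (hcov : ∀ T : Finset (Fin L), T.card < t → ∃ x, Disjoint (N x) T) :
    Fintype.card C * (M + t) ≤ S.card := by
  classical
  rw [Finset.card_eq_sum_card_fiberwise (f := cop τ) (s := S) (t := (univ : Finset C))
    (fun _ _ => by simp)]
  calc Fintype.card C * (M + t) = ∑ _c : C, (M + t) := by simp
    _ ≤ _ := Finset.sum_le_sum (fun c _ =>
        copy_lower τ N hr hq S hdom hni c t hM hrt hJt hNne hcov)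

/-- the cheap dominating set -/
theorem dom_upper (τ : A → C × Fin L) (N : Fin M → Finset (Fin L)) (hr : 0 < r) (a0 : A) :
    ∃ S : Finset (Vt C A M r q J), IsDom (GG τ N hr) S ∧ S.card ≤ Fintype.card C * M + 1 := by
  classical
  refine ⟨insert (Sum.inr (Sum.inr a0)) ((univ : Finset (C × Fin M)).image Sum.inl), ?_, ?_⟩
  · intro u hu
    rcases u with d | p | a
    · exfalso; apply hu
      rw [mem_insert]; right
      exact mem_image_of_mem _ (mem_univ _)
    · refine ⟨Sum.inl (p.1, p.2.1), ?_, ?_⟩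
      · rw [mem_insert]; right
        exact mem_image_of_mem _ (mem_univ _)
      · exact ⟨rfl, rfl⟩
    · refine ⟨Sum.inr (Sum.inr a0), mem_insert_self _ _, ?_⟩
      change a ≠ a0
      rintro rfl
      exact hu (mem_insert_self _ _)
  · refine (card_insert_le _ _).trans ?_
    have : ((univ : Finset (C × Fin M)).image
        (Sum.inl : C × Fin M → Vt C A M r q J)).card ≤ Fintype.card C * M := by
      refine card_image_le.trans ?_
      simp
    omega

theorem gg_connected (τ : A → C × Fin L) (N : Fin M → Finset (Fin L)) (hr : 0 < r) (a0 : A)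
    (hA : ∀ c x, ∃ a, (τ a).1 = c ∧ (τ a).2 ∈ N x) :
    (GG (q := q) (J := J) τ N hr).Connected := by
  classical
  set G := GG (q := q) (J := J) τ N hr with hG
  have hAr : ∀ a : A, G.Reachable (Sum.inr (Sum.inr a)) (Sum.inr (Sum.inr a0)) := by
    intro a
    by_cases h : a = a0
    · rw [h]
    · apply SimpleGraph.Adj.reachable
      exact h
  have hDr : ∀ d : C × Fin M, G.Reachable (Sum.inl d) (Sum.inr (Sum.inr a0)) := by
    intro d
    obtain ⟨a, ha1, ha2⟩ := hA d.1 d.2
    have h1 : G.Adj (Sum.inl d) (Sum.inr (Sum.inr a)) := ⟨ha1, ha2⟩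
    exact h1.reachable.trans (hAr a)
  have hall : ∀ u, G.Reachable u (Sum.inr (Sum.inr a0)) := by
    intro u
    rcases u with d | p | a
    · exact hDr d
    · have h1 : G.Adj (Sum.inr (Sum.inl p)) (Sum.inl (p.1, p.2.1)) := ⟨rfl, rfl⟩
      exact h1.reachable.trans (hDr _)
    · exact hAr a
  have : Nonempty (Vt C A M r q J) := ⟨Sum.inr (Sum.inr a0)⟩
  exact SimpleGraph.Connected.mk (fun u w => (hall u).trans (hall w).symm)

end

end Pool.Agent.R973.CD
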