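import Mathlib
import Pool.Agent.R973.CD.Gadget

/-!
# Domination numbers, the gap function and transport to `Fin n` (helper973, MP_af1bb3_co)
-/

set_option autoImplicit false

namespace Pool.Agent.R973.CD

open Finset

/-- the domination number -/
noncomputable def domNum {V : Type*} (G : SimpleGraph V) : ℕ :=
  sInf {m | ∃ S : Finset V, IsDom G S ∧ S.card = m}

/-- the connected domination number -/
noncomputable def connDomNum {V : Type*} (G : SimpleGraph V) : ℕ :=
  sInf {m | ∃ S : Finset V, IsDom G S ∧ (G.induce (S : Set V)).Connected ∧ S.card = m}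

/-- the largest value `d` of the difference (connected domination number minus domination number)
over the connected graphs on `n` vertices with minimum degree at least `k` -/
noncomputable def gap (n k : ℕ) : ℕ :=
  sSup {d | ∃ G : SimpleGraph (Fin n), G.Connected ∧ (∀ v, k ≤ (G.neighborSet v).ncard) ∧
    domNum G + d = connDomNum G}

theorem noIso_of_connected {V : Type*} (G : SimpleGraph V) (S : Finset V)
    (h : (G.induce (S : Set V)).Connected) : NoIso G S := by
  rintro d hd ⟨s, hs, hsd⟩
  obtain ⟨w⟩ := h.preconnected ⟨d, hd⟩ ⟨s, hs⟩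
  cases w with
  | nil => exact absurd rfl hsd
  | cons hadj p => exact ⟨_, Subtype.coe_prop _, hadj⟩

theorem conn_univ {V : Type*} [Fintype V] (G : SimpleGraph V) (h : G.Connected) :
    (G.induce ((univ : Finset V) : Set V)).Connected := by
  rw [coe_univ]
  exact (G.induceUnivIso.connected_iff).mpr h

theorem connDomNum_le {V : Type*} [Fintype V] (G : SimpleGraph V) (h : G.Connected) :
    connDomNum G ≤ Fintype.card V := by
  apply Nat.sInf_le
  exact ⟨univ, fun v hv => absurd (mem_univ v) hv, conn_univ G h, by simp⟩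

theorem domNum_le_connDomNum {V : Type*} [Fintype V] (G : SimpleGraph V) (h : G.Connected) :
    domNum G ≤ connDomNum G := by
  apply le_csInf
  · exact ⟨_, univ, fun v hv => absurd (mem_univ v) hv, conn_univ G h, rfl⟩
  · rintro m ⟨S, hS, _, rfl⟩
    exact Nat.sInf_le ⟨S, hS, rfl⟩

theorem gap_bdd (n k : ℕ) : BddAbove {d | ∃ G : SimpleGraph (Fin n), G.Connected ∧
    (∀ v, k ≤ (G.neighborSet v).ncard) ∧ domNum G + d = connDomNum G} := by
  refine ⟨n, ?_⟩
  rintro d ⟨G, hG, _, h⟩
  have := connDomNum_le G hG
  simp only [Fintype.card_fin] at this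
  omega

theorem gap_ge {V : Type*} [Fintype V] [DecidableEq V] (n k : ℕ) (hn : Fintype.card V = n)
    (G : SimpleGraph V) (hG : G.Connected) (hk : ∀ v, k ≤ (G.neighborSet v).ncard) (a b : ℕ)
    (hlow : ∀ S : Finset V, IsDom G S → NoIso G S → b ≤ S.card)
    (hup : ∃ S : Finset V, IsDom G S ∧ S.card ≤ a) : b - a ≤ gap n k := by
  classical
  let e : V ≃ Fin n := Fintype.equivFinOfCardEq hn
  let G' : SimpleGraph (Fin n) := G.comap e.symm
  have hadj : ∀ u v, G'.Adj u v ↔ G.Adj (e.symm u) (e.symm v) := fun u v => Iff.rfl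
  let φ : G' ≃g G := SimpleGraph.Iso.comap e.symm G
  have hconn : G'.Connected := φ.connected_iff.mpr hG
  have hdeg : ∀ v, k ≤ (G'.neighborSet v).ncard := by
    intro v
    have h1 : G.neighborSet (e.symm v) = e.symm '' (G'.neighborSet v) := by
      ext w
      simp only [SimpleGraph.mem_neighborSet, Set.mem_image]
      constructor
      · intro h
        exact ⟨e w, by rw [hadj]; simpa using h, by simp⟩
      · rintro ⟨u, hu, rfl⟩
        exact hu
    have h2 := hk (e.symm v)
    rw [h1, Set.ncard_image_of_injective _ e.symm.injective] at h2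
    exact h2
  have hlow' : b ≤ connDomNum G' := by
    apply le_csInf
    · exact ⟨_, univ, fun v hv => absurd (mem_univ v) hv, conn_univ G' hconn, rfl⟩
    · rintro m ⟨S', hS', hc, rfl⟩
      have hni := noIso_of_connected G' S' hc
      have := hlow (S'.map e.symm.toEmbedding) ?_ ?_
      · simpa using this
      · intro v hv
        have hv' : e v ∉ S' := by
          intro h
          apply hv
          rw [mem_map]
          exact ⟨e v, h, by simp⟩
        obtain ⟨u, hu, ha⟩ := hS' (e v) hv'
        refine ⟨e.symm u, mem_map_of_mem _ hu, ?_⟩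
        rw [hadj] at ha
        simpa using ha
      · intro d hd hex
        obtain ⟨s, hs, hsd⟩ := hex
        rw [mem_map] at hd hs
        obtain ⟨d', hd', rfl⟩ := hd
        obtain ⟨s', hs', rfl⟩ := hs
        obtain ⟨u, hu, ha⟩ := hni d' hd' ⟨s', hs', fun h => hsd (by rw [h])⟩
        exact ⟨e.symm u, mem_map_of_mem _ hu, ha⟩
  have hup' : domNum G' ≤ a := by
    obtain ⟨S, hS, hSa⟩ := hup
    refine le_trans (Nat.sInf_le ⟨S.map e.toEmbedding, ?_, rfl⟩) (by simpa using hSa)
    intro v hv
    have hv' : e.symm v ∉ S := by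
      intro h
      apply hv
      rw [mem_map]
      exact ⟨e.symm v, h, by simp⟩
    obtain ⟨u, hu, ha⟩ := hS _ hv'
    refine ⟨e u, mem_map_of_mem _ hu, ?_⟩
    rw [hadj]
    simpa using ha
  have hle := domNum_le_connDomNum G' hconn
  have hge : connDomNum G' - domNum G' ≤ gap n k :=
    le_csSup (gap_bdd n k) ⟨G', hconn, hdeg, by omega⟩
  omega

end Pool.Agent.R973.CD
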