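import Mathlib
import Pool.Agent.R973.CD.Transport

/-!
# The gadget graph with explicit parameters (helper973, MP_af1bb3_co)
-/

set_option autoImplicit false

namespace Pool.Agent.R973.CD

open Finset

theorem ncard_ge_of_inj {α β : Type*} [Finite β] (F : Finset α) (f : α → β) (s : Set β)
    (hs : ∀ x ∈ F, f x ∈ s) (hf : Set.InjOn f F) : F.card ≤ s.ncard := by
  classical
  have h1 : (F.image f).card = F.card := Finset.card_image_of_injOn hf
  have h2 : ((F.image f : Finset β) : Set β) ⊆ s := by
    intro y hy
    rw [mem_coe, mem_image] at hy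
    obtain ⟨x, hx, rfl⟩ := hy
    exact hs x hx
  have h3 := Set.ncard_le_ncard h2 (Set.toFinite s)
  rw [Set.ncard_coe_finset, h1] at h3
  exact h3

theorem gap_param (c M L r q J I R a t k : ℕ) (hc : 0 < c) (hM : 2 ≤ M) (hr : 0 < r) (hq : 0 < q)
    (hrt : M + t ≤ r) (hJt : M + t ≤ J) (N : Fin M → Finset (Fin L)) (ha : 0 < a)
    (hN : ∀ x, (N x).card = a)
    (hcov : ∀ T : Finset (Fin L), T.card < t → ∃ x, Disjoint (N x) T)
    (hL : 0 < L) (hI : 0 < I)
    (hk1 : k ≤ a * I) (hk2 : k ≤ M * ((q - 1) ^ r * J)) (hk3 : k + 1 ≤ c * (L * I)) :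
    c * t - 1 ≤ gap (c * M + (c * (M * (q ^ r * J)) + (c * (L * I) + R))) k := by
  classical
  let A : Type := (Fin c × Fin L × Fin I) ⊕ Fin R
  let τ : A → Fin c × Fin L := fun b => match b with
    | .inl p => (p.1, p.2.1)
    | .inr _ => (⟨0, hc⟩, ⟨0, hL⟩)
  have a0 : A := Sum.inl (⟨0, hc⟩, ⟨0, hL⟩, ⟨0, hI⟩)
  have hNne : ∀ x, (N x).Nonempty := fun x => by
    rw [← card_pos, hN x]; exact ha
  have hcardA : Fintype.card A = c * (L * I) + R := by
    simp [A]
  have hcard : Fintype.card (Vt (Fin c) A M r q J) =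
      c * M + (c * (M * (q ^ r * J)) + (c * (L * I) + R)) := by
    rw [Fintype.card_sum, Fintype.card_sum, hcardA]
    simp
  have hconn : (GG (q := q) (J := J) τ N hr).Connected := by
    apply gg_connected τ N hr a0
    intro d x
    obtain ⟨y, hy⟩ := hNne x
    exact ⟨Sum.inl (d, y, ⟨0, hI⟩), rfl, hy⟩
  have hdeg : ∀ v, k ≤ ((GG (q := q) (J := J) τ N hr).neighborSet v).ncard := by
    intro v
    rcases v with d | p | b
    · refine hk1.trans ?_
      have h1 := ncard_ge_of_inj ((N d.2) ×ˢ (univ : Finset (Fin I)))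
        (fun z => (Sum.inr (Sum.inr (Sum.inl (d.1, z.1, z.2))) : Vt (Fin c) A M r q J))
        ((GG (q := q) (J := J) τ N hr).neighborSet (Sum.inl d)) ?_ ?_
      · rw [card_product, hN] at h1
        simpa using h1
      · intro z hz
        rw [mem_product] at hz
        rw [SimpleGraph.mem_neighborSet]
        exact ⟨rfl, hz.1⟩
      · intro z _ z' _ h
        have h' : (d.1, z.1, z.2) = (d.1, z'.1, z'.2) :=
          Sum.inl_injective (Sum.inr_injective (Sum.inr_injective h))
        simp only [Prod.mk.injEq] at h'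
        exact Prod.ext h'.2.1 h'.2.2
    · refine hk2.trans ?_
      have h1 := ncard_ge_of_inj ((univ : Finset (Fin M)) ×ˢ
          ((Fintype.piFinset (fun i => (univ : Finset (Fin q)).erase (p.2.2.1 i))) ×ˢ
            (univ : Finset (Fin J))))
        (fun z => (Sum.inr (Sum.inl (p.1, z.1, z.2.1, z.2.2)) : Vt (Fin c) A M r q J))
        ((GG (q := q) (J := J) τ N hr).neighborSet (Sum.inr (Sum.inl p))) ?_ ?_
      · rw [card_product, card_product, Fintype.card_piFinset] at h1
        simpa [card_erase_of_mem] using h1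
      · intro z hz
        rw [mem_product, mem_product, Fintype.mem_piFinset] at hz
        rw [SimpleGraph.mem_neighborSet]
        refine ⟨rfl, fun i => ?_⟩
        have := hz.2.1 i
        rw [mem_erase] at this
        exact this.1.symm
      · intro z _ z' _ h
        simp only [Sum.inr.injEq, Sum.inl.injEq, Prod.mk.injEq, true_and] at h
        exact Prod.ext h.1 (Prod.ext h.2.1 h.2.2)
    · have h1 := ncard_ge_of_inj ((univ : Finset A).erase b)
        (fun z => (Sum.inr (Sum.inr z) : Vt (Fin c) A M r q J))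
        ((GG (q := q) (J := J) τ N hr).neighborSet (Sum.inr (Sum.inr b))) ?_ ?_
      · rw [card_erase_of_mem (mem_univ b), card_univ, hcardA] at h1
        omega
      · intro z hz
        rw [mem_erase] at hz
        rw [SimpleGraph.mem_neighborSet]
        exact hz.1.symm
      · intro z _ z' _ h
        exact Sum.inr_injective (Sum.inr_injective h)
  have h := gap_ge _ k hcard (GG (q := q) (J := J) τ N hr) hconn hdeg (c * M + 1) (c * (M + t))
    (by
      intro S hS hni
      have := conn_lower τ N hr hq S hS hni t hM hrt hJt hNne hcov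
      simpa using this)
    (by
      have := dom_upper (q := q) (J := J) τ N hr a0
      simpa using this)
  have h2 : c * (M + t) - (c * M + 1) = c * t - 1 := by
    rw [mul_add]; omega
  rw [h2] at h
  exact h

end Pool.Agent.R973.CD
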