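import Mathlib
import Pool.Agent.R973.CD.Param
import Pool.Agent.R973.CD.Cover

/-!
# Choice of the sizes (helper973, MP_af1bb3_co)
-/

set_option autoImplicit false

namespace Pool.Agent.R973.CD

open Finset

theorem succ_pow_le (r : ℕ) (hr : 0 < r) : (r + 1) ^ r ≤ 3 * r ^ r := by
  have hr' : (0 : ℝ) < r := by exact_mod_cast hr
  have h1 : ((r : ℝ) + 1) ^ r ≤ 3 * (r : ℝ) ^ r := by
    have h2 : (1 + 1 / (r : ℝ)) ^ r ≤ Real.exp 1 := by
      have : 1 + 1 / (r : ℝ) ≤ Real.exp (1 / r) := by
        have := Real.add_one_le_exp (1 / (r : ℝ)); linarith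
      calc (1 + 1 / (r : ℝ)) ^ r ≤ (Real.exp (1 / r)) ^ r :=
            pow_le_pow_left₀ (by positivity) this r
        _ = Real.exp 1 := by
            rw [← Real.exp_nat_mul]; congr 1; field_simp
    have h3 : Real.exp 1 < 3 := by
      have := Real.exp_one_lt_d9; linarith
    have h4 : ((r : ℝ) + 1) = r * (1 + 1 / r) := by field_simp
    rw [h4, mul_pow]
    nlinarith [pow_pos hr' r]
  exact_mod_cast h1

theorem gap_stepA (g t M k n : ℕ) (hg : 3 ≤ g) (ht : 1 ≤ t) (hM : 2 ≤ M)
    (hcov : ((g ^ 2 * t : ℕ) : ℝ) ≤ (((g : ℝ) ^ 2 - g - 1) / (g : ℝ) ^ 2) ^ t * M)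
    (hk : 4 * (M * (M + t) ^ (M + t + 1)) + g ^ 2 * t ≤ k) (hn : (g + 4) * k ≤ n) :
    ((n : ℝ) / ((g + 4) * k) - 1) * t - 1 ≤ gap n k := by
  set r := M + t with hr
  set a := g * t with ha
  set L := g * a with hL
  have ha0 : 0 < a := by positivity
  have hL0 : 0 < L := by positivity
  have hr0 : 0 < r := by omega
  have hgpos : (0 : ℝ) < g := by
    have : 0 < g := by omega
    exact_mod_cast this
  have htpos : (0 : ℝ) < t := by exact_mod_cast ht
  have hLeq : g ^ 2 * t = L := by rw [hL, ha]; ring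
  rw [hLeq] at hk hcov
  obtain ⟨N, hN, hNc⟩ := cover_exists' L a t M hL0 (by
      rw [hL, ha]; nlinarith) (by
      have h1 : ((L : ℝ) - a - t) / L = ((g : ℝ) ^ 2 - g - 1) / (g : ℝ) ^ 2 := by
        rw [hL, ha]; push_cast; field_simp
      rw [h1]; exact hcov)
  have hrr : 0 < r ^ r := by positivity
  have hMr : 0 < M * r ^ r := by positivity
  set J := k / (M * r ^ r) + 1 with hJ
  set I := k / a + 1 with hI
  have hr1 : M * r ^ r * r = M * r ^ (r + 1) := by rw [pow_succ]; ring
  have hJr : r ≤ J := by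
    have : r ≤ k / (M * r ^ r) := by
      rw [Nat.le_div_iff_mul_le hMr]
      calc r * (M * r ^ r) = M * r ^ (r + 1) := by rw [← hr1]; ring
        _ ≤ k := by omega
    omega
  have hk2 : k + 1 ≤ M * r ^ r * J := by
    have := Nat.lt_mul_div_succ k hMr
    exact this
  have hk1 : k + 1 ≤ a * I := Nat.lt_mul_div_succ k ha0
  have hk2' : M * r ^ r * J ≤ k + M * r ^ r := by
    have := Nat.mul_div_le k (M * r ^ r)
    rw [hJ, mul_add, mul_one]; omega
  have hk1' : a * I ≤ k + a := by
    have := Nat.mul_div_le k a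
    rw [hI, mul_add, mul_one]; omega
  set h := M + (M * ((r + 1) ^ r * J) + L * I) with hh
  have hh0 : 0 < h := by omega
  have hhle : h ≤ (g + 4) * k := by
    have h1 : M * ((r + 1) ^ r * J) ≤ 3 * (M * r ^ r * J) := by
      calc M * ((r + 1) ^ r * J) ≤ M * ((3 * r ^ r) * J) := by
            apply Nat.mul_le_mul_left
            apply Nat.mul_le_mul_right
            exact succ_pow_le r hr0
        _ = 3 * (M * r ^ r * J) := by ring
    have h2 : L * I ≤ g * k + L := by
      calc L * I = g * (a * I) := by rw [hL]; ring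
        _ ≤ g * (k + a) := Nat.mul_le_mul_left _ hk1'
        _ = g * k + L := by rw [hL]; ring
    have h3 : M * r ^ r ≤ M * r ^ (r + 1) := by
      rw [← hr1]; exact Nat.le_mul_of_pos_right _ hr0
    have h4 : M ≤ M * r ^ r := Nat.le_mul_of_pos_right _ hrr
    have h5 : (g + 4) * k = g * k + 4 * k := by ring
    omega
  set c := n / h with hc
  have hc0 : 0 < c := Nat.div_pos (by omega) hh0
  set R := n % h with hR
  have hdm : n = c * h + R := by
    rw [hc, hR, mul_comm]; exact (Nat.div_add_mod n h).symm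
  have hform : c * M + (c * (M * ((r + 1) ^ r * J)) + (c * (L * I) + R)) = n := by
    rw [hdm, hh]; ring
  have hmain := gap_param c M L r (r + 1) J I R a t k hc0 hM hr0 (Nat.succ_pos r) le_rfl
    hJr N ha0 hN hNc hL0 (Nat.succ_pos _) (by omega)
    (by
      rw [Nat.add_sub_cancel]
      calc k ≤ M * r ^ r * J := by omega
        _ = M * (r ^ r * J) := by ring)
    (by
      have h1 : a * I ≤ L * I := by
        apply Nat.mul_le_mul_right
        rw [hL]; exact Nat.le_mul_of_pos_left _ (by omega)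
      have h2 : L * I ≤ c * (L * I) := Nat.le_mul_of_pos_left _ hc0
      omega)
  rw [hform] at hmain
  have hct : ((c : ℝ) * t - 1) ≤ (gap n k : ℝ) := by
    have h1 : ((c * t - 1 : ℕ) : ℝ) ≤ (gap n k : ℝ) := by exact_mod_cast hmain
    have h2 : 1 ≤ c * t := Nat.mul_pos hc0 ht
    rw [Nat.cast_sub h2] at h1
    push_cast at h1
    exact h1
  have hcge : (n : ℝ) / ((g + 4) * k) - 1 ≤ c := by
    have hk0 : 0 < k := by
      by_contra h0
      have : k = 0 := by omega
      subst this
      omega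
    have hh0' : (0 : ℝ) < h := by exact_mod_cast hh0
    have h1 : (n : ℝ) / ((g + 4) * k) ≤ n / h := by
      apply div_le_div_of_nonneg_left (Nat.cast_nonneg n) hh0'
      exact_mod_cast hhle
    have h2 : (n : ℝ) / h < c + 1 := by
      rw [div_lt_iff₀ hh0']
      have : n < (c + 1) * h := by
        have := Nat.lt_mul_div_succ n hh0
        rw [← hc] at this
        linarith [mul_comm h (c + 1)]
      exact_mod_cast this
    linarith
  nlinarith
  
end Pool.Agent.R973.CD
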