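import Mathlib
import Pool.Agent.R973.CD.StepA

/-!
# Asymptotics of the parameters (helper973, MP_af1bb3_co)
-/

set_option autoImplicit false

namespace Pool.Agent.R973.CD

open Finset Filter

theorem ev_log_le (C s : ℝ) (hs : 0 < s) : ∀ᶠ z : ℝ in atTop, C * Real.log z ≤ z ^ s := by
  have h1 := (isLittleO_log_rpow_atTop hs).def (c := 1 / (|C| + 1)) (by positivity)
  filter_upwards [h1, eventually_ge_atTop (1 : ℝ)] with z hz hz1
  have hlog : 0 ≤ Real.log z := Real.log_nonneg hz1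
  have hpow : 0 ≤ z ^ s := Real.rpow_nonneg (by linarith) s
  rw [Real.norm_of_nonneg hlog, Real.norm_of_nonneg hpow] at hz
  have hC : C ≤ |C| + 1 := by linarith [le_abs_self C]
  calc C * Real.log z ≤ (|C| + 1) * Real.log z := mul_le_mul_of_nonneg_right hC hlog
    _ ≤ (|C| + 1) * (1 / (|C| + 1) * z ^ s) := mul_le_mul_of_nonneg_left hz (by positivity)
    _ = z ^ s := by field_simp

theorem stepB (η : ℝ) (h0 : 0 < η) (h1 : η < 1) (g : ℕ) (hg : 8 / η + 4 ≤ g) :
    ∀ᶠ k : ℕ in atTop, ∀ t M : ℕ,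
      t = ⌊(1 - η) * g * Real.log (Real.log (k + 1))⌋₊ →
      M = ⌈((g : ℝ) ^ 2 * t) * ((g : ℝ) ^ 2 / ((g : ℝ) ^ 2 - g - 1)) ^ t⌉₊ + 2 →
      4 * (M * (M + t) ^ (M + t + 1)) + g ^ 2 * t ≤ k := by
  have htend : Tendsto (fun k : ℕ => Real.log ((k : ℝ) + 1)) atTop atTop :=
    Real.tendsto_log_atTop.comp
      (tendsto_atTop_add_const_right _ _ tendsto_natCast_atTop_atTop)
  have hs : 0 < η / 4 := by linarith
  have e2 := htend.eventually (ev_log_le ((g : ℝ) ^ 3 + g + 3) (η / 4) hs)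
  have e4 := htend.eventually
    (eventually_ge_atTop (2 * (Real.log (4 + (g : ℝ) ^ 2) + Real.log 2)))
  have e1 := (Real.tendsto_log_atTop.comp htend).eventually (eventually_ge_atTop (1 : ℝ))
  filter_upwards [e1, e2, e4, eventually_ge_atTop 1, htend.eventually (eventually_ge_atTop (1 : ℝ))]
    with k hy1 hE2 hE4 hk1 hz1
  intro t M ht hM
  simp only [Function.comp] at hy1
  set z := Real.log ((k : ℝ) + 1) with hz
  set y := Real.log z with hy
  have hz0 : 0 < z := by linarith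
  have hgr : (12 : ℝ) ≤ g := by
    have : 8 < 8 / η := by rw [lt_div_iff₀ h0]; linarith
    linarith
  have hηg : 8 ≤ η * g := by
    have h2 : 8 / η ≤ g := by linarith
    rw [div_le_iff₀ h0] at h2; linarith
  have hden : 0 < (g : ℝ) ^ 2 - g - 1 := by nlinarith
  set b : ℝ := (g : ℝ) ^ 2 / ((g : ℝ) ^ 2 - g - 1) with hb
  have hb1 : 1 ≤ b := by
    rw [hb, le_div_iff₀ hden]; linarith
  have hb0 : 0 < b := by linarith
  -- log b
  have hlogb : Real.log b ≤ ((g : ℝ) + 1) / ((g : ℝ) ^ 2 - g - 1) := by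
    have h2 := Real.log_le_sub_one_of_pos hb0
    have h3 : b - 1 = ((g : ℝ) + 1) / ((g : ℝ) ^ 2 - g - 1) := by
      rw [hb, div_sub_one hden.ne']; congr 1; ring
    linarith
  have hlogb0 : 0 ≤ Real.log b := Real.log_nonneg hb1
  have hkap : (1 - η) * g * Real.log b ≤ 1 - η / 2 := by
    have h2 : (1 - η) * g * Real.log b ≤
        (1 - η) * g * (((g : ℝ) + 1) / ((g : ℝ) ^ 2 - g - 1)) := by
      apply mul_le_mul_of_nonneg_left hlogb
      apply mul_nonneg <;> linarith
    refine h2.trans ?_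
    rw [mul_div_assoc', div_le_iff₀ hden]
    nlinarith
  have ht_le : (t : ℝ) ≤ (1 - η) * g * y := by
    rw [ht]; apply Nat.floor_le
    apply mul_nonneg
    · apply mul_nonneg <;> linarith
    · linarith
  have ht_le2 : (t : ℝ) ≤ g * y := by
    refine ht_le.trans ?_
    apply mul_le_mul_of_nonneg_right _ (by linarith)
    nlinarith
  have hbt : b ^ t ≤ z ^ (1 - η / 2) := by
    have h2 : b ^ t = Real.exp (t * Real.log b) := by
      rw [Real.exp_nat_mul, Real.exp_log hb0]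
    rw [h2, Real.rpow_def_of_pos hz0]
    apply Real.exp_le_exp.mpr
    calc (t : ℝ) * Real.log b ≤ ((1 - η) * g * y) * Real.log b :=
          mul_le_mul_of_nonneg_right ht_le hlogb0
      _ = y * ((1 - η) * g * Real.log b) := by ring
      _ ≤ y * (1 - η / 2) := mul_le_mul_of_nonneg_left hkap (by linarith)
  have hzk1 : 1 ≤ z ^ (1 - η / 2) := Real.one_le_rpow hz1 (by linarith)
  have hMle : (M : ℝ) ≤ (g : ℝ) ^ 2 * t * b ^ t + 3 := by
    rw [hM]; push_cast
    have := (Nat.ceil_lt_add_one (a := ((g : ℝ) ^ 2 * t) * b ^ t) (by positivity)).le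
    linarith
  set u := M + t with hu
  have hu2 : 2 ≤ u := by omega
  have hule : (u : ℝ) ≤ z ^ (1 - η / 4) := by
    have h2 : (u : ℝ) ≤ ((g : ℝ) ^ 3 + g + 3) * y * z ^ (1 - η / 2) := by
      have h3 : (g : ℝ) ^ 2 * t * b ^ t ≤ (g : ℝ) ^ 2 * (g * y) * z ^ (1 - η / 2) := by
        apply mul_le_mul _ hbt (by positivity) (by positivity)
        apply mul_le_mul_of_nonneg_left ht_le2 (by positivity)
      have h4 : (g : ℝ) * y ≤ g * y * z ^ (1 - η / 2) :=
        le_mul_of_one_le_right (by positivity) hzk1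
      have h5 : (3 : ℝ) ≤ 3 * y * z ^ (1 - η / 2) := by
        have : 1 ≤ y * z ^ (1 - η / 2) := one_le_mul_of_one_le_of_one_le hy1 hzk1
        linarith
      rw [hu]; push_cast
      calc (M : ℝ) + t ≤ ((g : ℝ) ^ 2 * t * b ^ t + 3) + g * y := by linarith
        _ ≤ (g : ℝ) ^ 2 * (g * y) * z ^ (1 - η / 2) + 3 * y * z ^ (1 - η / 2)
            + g * y * z ^ (1 - η / 2) := by linarith
        _ = _ := by ring
    refine h2.trans ?_
    calc ((g : ℝ) ^ 3 + g + 3) * y * z ^ (1 - η / 2) ≤ z ^ (η / 4) * z ^ (1 - η / 2) :=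
          mul_le_mul_of_nonneg_right hE2 (by positivity)
      _ = z ^ (1 - η / 4) := by
          rw [← Real.rpow_add hz0]; congr 1; ring
  have hu0 : (0 : ℝ) < u := by
    have : 0 < u := by omega
    exact_mod_cast this
  have hlogu : Real.log u ≤ y := by
    calc Real.log u ≤ Real.log (z ^ (1 - η / 4)) := Real.log_le_log hu0 hule
      _ = (1 - η / 4) * y := by rw [Real.log_rpow hz0]
      _ ≤ y := by nlinarith
  have hlogu0 : 0 ≤ Real.log u := by
    apply Real.log_nonneg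
    have : 1 ≤ u := by omega
    exact_mod_cast this
  have hzk1' : 1 ≤ z ^ (1 - η / 4) := Real.one_le_rpow hz1 (by linarith)
  have hprod : ((u : ℝ) + 2) * Real.log u ≤ z / 2 := by
    have h2 : ((u : ℝ) + 2) * Real.log u ≤ (3 * z ^ (1 - η / 4)) * y := by
      apply mul_le_mul _ hlogu hlogu0 (by positivity)
      linarith
    have h3 : 6 * y ≤ z ^ (η / 4) := by
      refine le_trans ?_ hE2
      apply mul_le_mul_of_nonneg_right _ (by linarith)
      nlinarith [pow_pos (by linarith : (0 : ℝ) < g) 3]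
    have h4 : z ^ (1 - η / 4) * z ^ (η / 4) = z := by
      rw [← Real.rpow_add hz0]
      have : 1 - η / 4 + η / 4 = 1 := by ring
      rw [this, Real.rpow_one]
    calc ((u : ℝ) + 2) * Real.log u ≤ (3 * z ^ (1 - η / 4)) * y := h2
      _ = z ^ (1 - η / 4) * (6 * y) / 2 := by ring
      _ ≤ z ^ (1 - η / 4) * z ^ (η / 4) / 2 := by
          apply div_le_div_of_nonneg_right _ (by norm_num)
          exact mul_le_mul_of_nonneg_left h3 (by positivity)
      _ = z / 2 := by rw [h4]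
  have hexp : (4 + (g : ℝ) ^ 2) * (u : ℝ) ^ (u + 2) ≤ ((k : ℝ) + 1) / 2 := by
    have h2 : (4 + (g : ℝ) ^ 2) * (u : ℝ) ^ (u + 2) =
        Real.exp (Real.log (4 + (g : ℝ) ^ 2) + ((u : ℝ) + 2) * Real.log u) := by
      rw [Real.exp_add, Real.exp_log (by positivity)]
      congr 1
      have : ((u : ℝ) + 2) = ((u + 2 : ℕ) : ℝ) := by push_cast; ring
      rw [this, Real.exp_nat_mul, Real.exp_log hu0]
    have h3 : ((k : ℝ) + 1) / 2 = Real.exp (z - Real.log 2) := by
      have h5 : Real.exp z = (k : ℝ) + 1 := by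
        rw [hz]; exact Real.exp_log (by positivity)
      rw [Real.exp_sub, h5, Real.exp_log (by norm_num : (0 : ℝ) < 2)]
    rw [h2, h3]
    apply Real.exp_le_exp.mpr
    linarith
  have hk1' : (1 : ℝ) ≤ k := by exact_mod_cast hk1
  have hreal : (4 + (g : ℝ) ^ 2) * (u : ℝ) ^ (u + 2) ≤ k := by linarith
  have hnat : (4 + g ^ 2) * u ^ (u + 2) ≤ k := by exact_mod_cast hreal
  refine le_trans ?_ hnat
  have hMu : M ≤ u := by omega
  have htu : t ≤ u := by omega
  have h2 : M * u ^ (u + 1) ≤ u ^ (u + 2) := by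
    calc M * u ^ (u + 1) ≤ u * u ^ (u + 1) := Nat.mul_le_mul_right _ hMu
      _ = u ^ (u + 2) := by ring
  have h3 : t ≤ u ^ (u + 2) := by
    refine htu.trans ?_
    exact Nat.le_self_pow (by omega) u
  calc 4 * (M * u ^ (u + 1)) + g ^ 2 * t ≤ 4 * u ^ (u + 2) + g ^ 2 * u ^ (u + 2) :=
        Nat.add_le_add (Nat.mul_le_mul_left _ h2) (Nat.mul_le_mul_left _ h3)
    _ = (4 + g ^ 2) * u ^ (u + 2) := by ring

end Pool.Agent.R973.CD
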