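import Mathlib
import Pool.Agent.R973.CD.StepB

/-!
# The lower bound for the gap (helper973, MP_af1bb3_co)
-/

set_option autoImplicit false

namespace Pool.Agent.R973.CD

open Finset Filter

theorem gap_lower_eta (η : ℝ) (h0 : 0 < η) (h1 : η < 1) :
    ∃ K : ℕ, ∀ k n : ℕ, K ≤ k → K * k ≤ n →
      1 ≤ Real.log (Real.log (k + 1)) ∧
      (1 - 5 * η) * (((n : ℝ) / k) * Real.log (Real.log (k + 1))) ≤ gap n k := by
  obtain ⟨g, hg⟩ : ∃ g : ℕ, 8 / η + 4 ≤ g := exists_nat_ge _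
  have hB := stepB η h0 h1 g hg
  have htend : Tendsto (fun k : ℕ => Real.log (Real.log ((k : ℝ) + 1))) atTop atTop :=
    Real.tendsto_log_atTop.comp (Real.tendsto_log_atTop.comp
      (tendsto_atTop_add_const_right _ _ tendsto_natCast_atTop_atTop))
  have hy := htend.eventually (eventually_ge_atTop (max 1 (1 / (η * (1 - η) * g))))
  obtain ⟨K0, hK0⟩ := eventually_atTop.mp (hB.and hy)
  obtain ⟨K1, hK1⟩ : ∃ K1 : ℕ, ((g : ℝ) + 4) / η ≤ K1 := exists_nat_ge _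
  refine ⟨max (max K0 K1) 1, ?_⟩
  intro k n hk hn
  have hkK0 : K0 ≤ k := by omega
  have hk1 : 1 ≤ k := by omega
  obtain ⟨hstep, hyk⟩ := hK0 k hkK0
  set y := Real.log (Real.log ((k : ℝ) + 1)) with hydef
  have hy1 : 1 ≤ y := le_trans (le_max_left _ _) hyk
  have hy2 : 1 / (η * (1 - η) * g) ≤ y := le_trans (le_max_right _ _) hyk
  refine ⟨hy1, ?_⟩
  have hgr : (12 : ℝ) ≤ g := by
    have : 8 < 8 / η := by rw [lt_div_iff₀ h0]; linarith
    linarith
  have hg3 : 3 ≤ g := by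
    have : (3 : ℝ) ≤ g := by linarith
    exact_mod_cast this
  have hηg : 8 ≤ η * g := by
    have h2 : 8 / η ≤ g := by linarith
    rw [div_le_iff₀ h0] at h2; linarith
  have hden : 0 < (g : ℝ) ^ 2 - g - 1 := by nlinarith
  have hpos : 0 < η * (1 - η) * g := by
    apply mul_pos (mul_pos h0 (by linarith)); linarith
  have hy3 : 1 ≤ η * (1 - η) * g * y := by
    rw [div_le_iff₀ hpos] at hy2; linarith
  set t := ⌊(1 - η) * g * y⌋₊ with ht
  set M := ⌈((g : ℝ) ^ 2 * t) * ((g : ℝ) ^ 2 / ((g : ℝ) ^ 2 - g - 1)) ^ t⌉₊ + 2 with hM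
  have hKk := hstep t M rfl rfl
  have hgy1 : 1 ≤ (1 - η) * g * y := by
    have : η * (1 - η) * g * y ≤ 1 * ((1 - η) * g * y) := by
      have h2 : 0 ≤ (1 - η) * g * y := by
        apply mul_nonneg (mul_nonneg _ _) <;> linarith
      calc η * (1 - η) * g * y = η * ((1 - η) * g * y) := by ring
        _ ≤ 1 * ((1 - η) * g * y) := mul_le_mul_of_nonneg_right h1.le h2
    linarith
  have ht1 : 1 ≤ t := by
    rw [ht]; exact Nat.le_floor (by simpa using hgy1)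
  have htge : (1 - η) * g * y - 1 ≤ t := by
    have := Nat.lt_floor_add_one ((1 - η) * (g : ℝ) * y)
    rw [← ht] at this; linarith
  have htge2 : (1 - η) ^ 2 * g * y ≤ t := by
    have : (1 - η) ^ 2 * g * y = (1 - η) * g * y - η * (1 - η) * g * y := by ring
    linarith
  have hcov : ((g ^ 2 * t : ℕ) : ℝ) ≤ (((g : ℝ) ^ 2 - g - 1) / (g : ℝ) ^ 2) ^ t * M := by
    have hMge : ((g : ℝ) ^ 2 * t) * ((g : ℝ) ^ 2 / ((g : ℝ) ^ 2 - g - 1)) ^ t ≤ M := by
      rw [hM]; push_cast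
      have := Nat.le_ceil (((g : ℝ) ^ 2 * t) * ((g : ℝ) ^ 2 / ((g : ℝ) ^ 2 - g - 1)) ^ t)
      linarith
    have hprod : (((g : ℝ) ^ 2 - g - 1) / (g : ℝ) ^ 2) ^ t *
        ((g : ℝ) ^ 2 / ((g : ℝ) ^ 2 - g - 1)) ^ t = 1 := by
      rw [← mul_pow]
      have : ((g : ℝ) ^ 2 - g - 1) / (g : ℝ) ^ 2 * ((g : ℝ) ^ 2 / ((g : ℝ) ^ 2 - g - 1)) = 1 := by
        have hg0 : (g : ℝ) ≠ 0 := by linarith
        have hd0 : (g : ℝ) ^ 2 - g - 1 ≠ 0 := hden.ne'
        rw [div_mul_div_comm, mul_comm, div_self]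
        exact mul_ne_zero (pow_ne_zero 2 hg0) hd0
      rw [this, one_pow]
    calc ((g ^ 2 * t : ℕ) : ℝ) = ((((g : ℝ) ^ 2 - g - 1) / (g : ℝ) ^ 2) ^ t *
          ((g : ℝ) ^ 2 / ((g : ℝ) ^ 2 - g - 1)) ^ t) * ((g : ℝ) ^ 2 * t) := by
            rw [hprod]; push_cast; ring
      _ = (((g : ℝ) ^ 2 - g - 1) / (g : ℝ) ^ 2) ^ t *
          (((g : ℝ) ^ 2 * t) * ((g : ℝ) ^ 2 / ((g : ℝ) ^ 2 - g - 1)) ^ t) := by ring
      _ ≤ _ := by
          apply mul_le_mul_of_nonneg_left hMge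
          apply pow_nonneg
          apply div_nonneg hden.le (by positivity)
  have hkpos : (0 : ℝ) < k := by exact_mod_cast hk1
  have hKρ : ((g : ℝ) + 4) / η ≤ (n : ℝ) / k := by
    rw [le_div_iff₀ hkpos]
    have h2 : ((K1 * k : ℕ) : ℝ) ≤ n := by
      have : K1 * k ≤ n := le_trans (Nat.mul_le_mul_right k (by omega)) hn
      exact_mod_cast this
    push_cast at h2
    calc ((g : ℝ) + 4) / η * k ≤ K1 * k := mul_le_mul_of_nonneg_right hK1 hkpos.le
      _ ≤ n := h2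
  set ρ : ℝ := (n : ℝ) / k with hρ
  have hρη : (g : ℝ) + 4 ≤ η * ρ := by
    rw [div_le_iff₀ h0] at hKρ; linarith
  have hng : (g + 4) * k ≤ n := by
    have h2 : ((g : ℝ) + 4) ≤ ρ := by
      have : η * ρ ≤ ρ := by
        have hρ0 : 0 ≤ ρ := by positivity
        nlinarith
      linarith
    rw [hρ, le_div_iff₀ hkpos] at h2
    exact_mod_cast h2
  have hA := gap_stepA g t M k n hg3 ht1 (by omega) hcov hKk hng
  refine le_trans ?_ hA
  have hdiv : (n : ℝ) / ((g + 4) * k) = ρ / (g + 4) := by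
    rw [hρ]; field_simp
  rw [hdiv]
  have hg4 : (0 : ℝ) < (g : ℝ) + 4 := by linarith
  have hρ0 : 0 < ρ := by nlinarith
  have h2 : (1 - η) * (ρ / (g + 4)) ≤ ρ / (g + 4) - 1 := by
    have : 1 ≤ η * (ρ / (g + 4)) := by
      rw [mul_div_assoc', le_div_iff₀ hg4]; linarith
    linarith
  have h3 : (1 - η) * (ρ / (g + 4)) * ((1 - η) ^ 2 * g * y) ≤ (ρ / (g + 4) - 1) * t := by
    apply mul_le_mul h2 htge2
    · positivity
    · have : 0 ≤ (1 - η) * (ρ / (g + 4)) := by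
        apply mul_nonneg (by linarith); positivity
      linarith
  have h4 : (1 - η) ^ 4 * (ρ * y) ≤ (1 - η) * (ρ / (g + 4)) * ((1 - η) ^ 2 * g * y) := by
    have h5 : (1 - η) ≤ g / ((g : ℝ) + 4) := by
      rw [le_div_iff₀ hg4]; nlinarith
    calc (1 - η) ^ 4 * (ρ * y) = (1 - η) * ((1 - η) ^ 3 * (ρ * y)) := by ring
      _ ≤ (g / ((g : ℝ) + 4)) * ((1 - η) ^ 3 * (ρ * y)) := by
          apply mul_le_mul_of_nonneg_right h5
          apply mul_nonneg (pow_nonneg (by linarith) 3)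
          positivity
      _ = (1 - η) * (ρ / (g + 4)) * ((1 - η) ^ 2 * g * y) := by field_simp
  have h5 : 1 - 4 * η ≤ (1 - η) ^ 4 := by
    have := one_add_mul_le_pow (a := -η) (by linarith) 4
    push_cast at this
    linarith [this, show (1 + -η) = 1 - η by ring, show ((1 + -η) ^ 4) = (1 - η) ^ 4 by ring]
  have h6 : 1 ≤ η * (ρ * y) := by
    have : 1 ≤ η * ρ := by linarith
    calc (1 : ℝ) = 1 * 1 := by ring
      _ ≤ (η * ρ) * y := mul_le_mul this hy1 (by norm_num) (by linarith)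
      _ = η * (ρ * y) := by ring
  have h7 : (1 - 4 * η) * (ρ * y) ≤ (1 - η) ^ 4 * (ρ * y) :=
    mul_le_mul_of_nonneg_right h5 (by positivity)
  have h8 : (1 - 5 * η) * (ρ * y) = (1 - 4 * η) * (ρ * y) - η * (ρ * y) := by ring
  linarith

end Pool.Agent.R973.CD
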